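import Pool.Agent.H36.LN.O5

/-!
# MP_0d715d_mp: `C* ≤ (9/10)(4π/3)^{1/3} = 1.45079...`

For all numbers `q` of spin states, all particle numbers `N = n+1` and all `N`-electron states `ψ`
(antisymmetric, normalized) for which the quantities involved are finite,
`I_ψ ≥ -(9/10)(4π/3)^{1/3} ∫ ρ_ψ^{4/3}`.
This is the classical constant for a uniform background (Lieb and Narnhofer 1975), here for all densities.
-/

open MeasureTheory Pool.Agent.H75.LO

namespace Pool.Agent.Results.MP_0d715d_mp.LiebNarnhoferConstant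

/-- `I_ψ ≥ -C ∫ ρ_ψ^{4/3}` with `C = (9/10)(4π/3)^{1/3}`, for all `q`, all `N = n+1` and all admissible `ψ`. -/
theorem result (q n : ℕ) (ψ : Wave q (n + 1)) (h : Admissible ψ) :
    -(9 / 10 * (4 * Real.pi / 3) ^ (1 / 3 : ℝ)) * (∫ x, rho ψ x ^ (4 / 3 : ℝ)) ≤ indirect ψ := by
  have hk : 0 < (4 * Real.pi / 3) ^ (1 / 3 : ℝ) := Real.rpow_pos_of_pos (by positivity) _
  exact qm_gen (K := 9 / 10 * (4 * Real.pi / 3) ^ (1 / 3 : ℝ)) (by positivity)
    Pool.Agent.H36.LN.bounded_lo h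

end Pool.Agent.Results.MP_0d715d_mp.LiebNarnhoferConstant
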