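import Pool.Agent.H50.UD.Main

/-!
# MP_0d715d_mp: the indirect Coulomb energy of uniform densities, constant `1.4485`

For all numbers `q` of spin states, all particle numbers `N = n+1` and all `N`-electron states `ψ`
(antisymmetric, normalized) for which the quantities involved are finite:

* if `∫ ρ² < ∞` then `I_ψ ≥ -1.4485 (∫ ρ²)^{1/3} N^{2/3}`;
* if `ρ = a 1_Ω` a.e. for some `a` and some set `Ω`, then `I_ψ ≥ -1.4485 ∫ ρ^{4/3}`;
* if, for some `a > 0` and `R ≥ 1`, a.e. value of `ρ` is `0` or in `[a, R³ a]`, then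
  `I_ψ ≥ -1.4485 k(R) ∫ ρ^{4/3}`, `k(R) = (R²+R+1)/3 · (2/(R²+R))^{2/3}`
  (`k(1) = 1`, and `1.4485 k(2^{1/3}) = 1.4679...`).
-/

open MeasureTheory Pool.Agent.H75.LO

namespace Pool.Agent.Results.MP_0d715d_mp.UniformDensity

/-- The indirect Coulomb energy bound with constant `1.4485` for uniform densities, the general
inequality behind it, and the constant for densities which vary by a factor at most `R³` on
their support. -/
theorem result (q n : ℕ) (ψ : Wave q (n + 1)) (h : Admissible ψ) :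
    (Integrable (fun x => rho ψ x ^ 2) →
      -(14485 / 10000 : ℝ) * ((∫ x, rho ψ x ^ 2) ^ (1 / 3 : ℝ) * ((n : ℝ) + 1) ^ (2 / 3 : ℝ))
        ≤ indirect ψ) ∧
    (∀ (Ω : Set E3) (a : ℝ), (∀ᵐ x : E3, rho ψ x = Ω.indicator (fun _ => a) x) →
      -(14485 / 10000 : ℝ) * ∫ x, rho ψ x ^ (4 / 3 : ℝ) ≤ indirect ψ) ∧
    (∀ a R : ℝ, 0 < a → 1 ≤ R →
      (∀ᵐ x : E3, rho ψ x = 0 ∨ (a ≤ rho ψ x ∧ rho ψ x ≤ R ^ 3 * a)) →
      -(14485 / 10000 * ((R ^ 2 + R + 1) / 3 * (2 / (R ^ 2 + R)) ^ (2 / 3 : ℝ))) *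
        ∫ x, rho ψ x ^ (4 / 3 : ℝ) ≤ indirect ψ) :=
  ⟨fun h2 => Pool.Agent.H50.UD.ineq_N h h2, fun _ _ hu => Pool.Agent.H50.UD.uniform h hu,
    fun _ _ ha hR hu => Pool.Agent.H50.UD.factor_R h ha hR hu⟩

end Pool.Agent.Results.MP_0d715d_mp.UniformDensity
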